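import Mathlib
import Pool.Agent.X102.HCSol

set_option autoImplicit false

open MeasureTheory Filter Topology Set Metric InnerProductSpace Laplacian
open scoped ENNReal NNReal ContDiff
open Pool.Agent.X102 Pool.Agent.X102.HC

namespace Pool.Agent.Results.MP_0cf84d_an.MuchLess

/-- the open unit disk -/
abbrev D : Set ℂ := ball (0 : ℂ) 1

/-- the right-hand side -/
noncomputable def h (z : ℂ) : ℝ := 2 - 5 * (z.re ^ 2 + z.im ^ 2)

/-- the solution `u_*` (before extension by zero) -/
noncomputable def us (z : ℂ) : ℝ := -(1 - (z.re ^ 2 + z.im ^ 2)) / 2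

/-- the test function -/
noncomputable def V (z : ℂ) : ℝ := 1 - (z.re ^ 2 + z.im ^ 2)

/-- the potential -/
noncomputable def Psi (z : ℂ) : ℝ := -2 * (z.re ^ 2 + z.im ^ 2) + (z.re ^ 2 + z.im ^ 2) ^ 2 / 2

lemma cd_re {n : WithTop ℕ∞} : ContDiff ℝ n (fun z : ℂ => z.re) := Complex.reCLM.contDiff
lemma cd_im {n : WithTop ℕ∞} : ContDiff ℝ n (fun z : ℂ => z.im) := Complex.imCLM.contDiff

lemma cd_us : ContDiff ℝ ∞ us := by
  have h1 := cd_re (n := ∞); have h2 := cd_im (n := ∞)
  unfold us; fun_prop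

lemma cd_V : ContDiff ℝ ∞ V := by
  have h1 := cd_re (n := ∞); have h2 := cd_im (n := ∞)
  unfold V; fun_prop

lemma cd_Psi : ContDiff ℝ ∞ Psi := by
  have h1 := cd_re (n := ∞); have h2 := cd_im (n := ∞)
  unfold Psi; fun_prop

lemma cont_h : Continuous h := by
  have h1 := (cd_re (n := 0)).continuous; have h2 := (cd_im (n := 0)).continuous
  unfold h; fun_prop

lemma grad_us (z : ℂ) : gradient us z = z := by
  have h1 : ∀ t : ℝ, HasDerivAt (fun t : ℝ => -(1 - t) / 2) (1 / 2) t := by
    intro t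
    have := (((hasDerivAt_id t).const_sub 1).neg).div_const 2
    simpa using this
  have h2 := (radial_gradient h1 z).gradient
  unfold us
  rw [h2]; norm_num

lemma grad_V (z : ℂ) : gradient V z = (-2 : ℝ) • z := by
  have h1 : ∀ t : ℝ, HasDerivAt (fun t : ℝ => 1 - t) (-1) t := by
    intro t
    simpa using (hasDerivAt_id t).const_sub 1
  have h2 := (radial_gradient h1 z).gradient
  unfold V
  rw [h2]; norm_num

lemma dPsi (t : ℝ) : HasDerivAt (fun t : ℝ => -2 * t + t ^ 2 / 2) (-2 + t) t := by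
  have := ((hasDerivAt_id t).const_mul (-2)).add ((hasDerivAt_pow 2 t).div_const 2)
  refine this.congr_deriv ?_
  simp

lemma ddPsi (t : ℝ) : HasDerivAt (fun t : ℝ => -2 + t) 1 t := by
  simpa using (hasDerivAt_id t).const_add (-2)

lemma grad_Psi (z : ℂ) : gradient Psi z = (2 * (-2 + (z.re ^ 2 + z.im ^ 2))) • z :=
  (radial_gradient dPsi z).gradient

lemma lap_Psi (z : ℂ) : Δ Psi z = -8 * V z := by
  have := radial_laplacian dPsi ddPsi (cd_Psi.of_le (WithTop.coe_le_coe.mpr le_top)) z
  have e : Psi = fun z : ℂ => -2 * (z.re ^ 2 + z.im ^ 2) + (z.re ^ 2 + z.im ^ 2) ^ 2 / 2 := rfl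
  rw [e, this]
  unfold V; ring

lemma lap_us (z : ℂ) : Δ us z = 2 := by
  have h1 : ∀ t : ℝ, HasDerivAt (fun t : ℝ => -(1 - t) / 2) ((fun _ => 1 / 2) t) t := by
    intro t
    have := (((hasDerivAt_id t).const_sub 1).neg).div_const 2
    simpa using this
  have h2 : ∀ t : ℝ, HasDerivAt (fun _ : ℝ => (1 : ℝ) / 2) ((fun _ => 0) t) t :=
    fun t => hasDerivAt_const _ _
  have := radial_laplacian h1 h2 (cd_us.of_le (WithTop.coe_le_coe.mpr le_top)) z
  have e : us = fun z : ℂ => -(1 - (z.re ^ 2 + z.im ^ 2)) / 2 := rfl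
  rw [e, this]
  norm_num

lemma solG_us : SolG D (fun _ => 1) (fun _ => 1) h 8 (D.indicator us) (D.indicator (gradient us)) := by
  apply SolG.of_classical cd_us
  · intro z hz
    unfold us
    rw [nq, hz]; norm_num
  · exact continuousOn_const
  · exact continuousOn_const
  · exact cont_h.continuousOn
  · intro z _
    rw [lap_us, grad_us, ← nq]
    unfold us h
    ring

/-- the basic identity -/
lemma ident {u : ℂ → ℝ} {G : ℂ → ℂ} {lam : ℝ} (hs : SolG D (fun _ => 1) (fun _ => 1) h lam u G) :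
    IntegrableOn (fun z => ‖G z - z‖ ^ 2 * V z) D volume ∧
    (8 - lam) * ∫ z in D, u z * V z
      = (∫ z in D, ‖G z - z‖ ^ 2 * V z) + ∫ z in D, (h z - (z.re ^ 2 + z.im ^ 2)) * V z := by
  obtain ⟨hu, -, hw⟩ := hs
  have hVc : Continuous V := cd_V.continuous
  have hV1 : ∀ z, ‖z‖ = 1 → V z = 0 := by
    intro z hz; unfold V; rw [nq, hz]; norm_num
  have h1 := hw _ _ (HH.of_smooth cd_V hV1) (bounded_indicator hVc)
  have h2 := hu.green measurableSet_ball isBounded_ball
    (cd_Psi.of_le (WithTop.coe_le_coe.mpr le_top))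
    (continuous_laplacian (cd_Psi.of_le (WithTop.coe_le_coe.mpr le_top)))
  have hfin : IsFiniteMeasure (volume.restrict D) := ⟨by
    rw [Measure.restrict_apply_univ]; exact isBounded_ball.measure_lt_top⟩
  -- integrability
  have iG2 : IntegrableOn (fun z => V z * ‖G z‖ ^ 2) D volume :=
    integrable_cont_mul' hVc.continuousOn (hu.2.1.integrable_norm_pow (by norm_num)).integrableOn
  have iGz0 : IntegrableOn (fun z => (inner ℝ (G z) z : ℝ)) D volume := by
    have h3 := (CSv hu.2.1 (memLp_indicator (Ω := D) measurableSet_ball isBounded_ball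
      continuous_id 2)).1.integrableOn (s := D)
    refine h3.congr_fun (fun z hz => ?_) measurableSet_ball
    simp only [indicator_of_mem hz, id]
  have iGz : IntegrableOn (fun z => V z * (inner ℝ (G z) z : ℝ)) D volume :=
    integrable_cont_mul' hVc.continuousOn iGz0
  have iq : IntegrableOn (fun z => V z * (z.re ^ 2 + z.im ^ 2)) D volume := by
    have hc : Continuous (fun z : ℂ => V z * (z.re ^ 2 + z.im ^ 2)) := by
      have h1 := (cd_re (n := 0)).continuous; have h2 := (cd_im (n := 0)).continuous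
      fun_prop
    exact (hc.continuousOn.integrableOn_compact (isCompact_closedBall 0 1)).mono_set
      ball_subset_closedBall
  have ih : IntegrableOn (fun z => h z * V z) D volume := by
    have hc : Continuous (fun z : ℂ => h z * V z) := cont_h.mul hVc
    exact (hc.continuousOn.integrableOn_compact (isCompact_closedBall 0 1)).mono_set
      ball_subset_closedBall
  have iu : IntegrableOn (fun z => u z * V z) D volume := by
    have := integrable_cont_mul hVc.continuousOn hu.1
    exact this.congr_fun (fun z _ => mul_comm _ _) measurableSet_ball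
  have iPsi : IntegrableOn (fun z => (inner ℝ (G z) (gradient Psi z) : ℝ)) D volume := by
    have : IntegrableOn (fun z => (2 * (-2 + (z.re ^ 2 + z.im ^ 2))) * (inner ℝ (G z) z : ℝ)) D volume := by
      apply integrable_cont_mul' _ iGz0
      have h1 := (cd_re (n := 0)).continuous; have h2 := (cd_im (n := 0)).continuous
      fun_prop
    refine this.congr_fun (fun z _ => ?_) measurableSet_ball
    rw [grad_Psi, real_inner_smul_right]
  -- rewriting the weak formulation
  have a1 : ∫ z in D, (inner ℝ (G z) (D.indicator (gradient V) z) : ℝ)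
      = (∫ z in D, (inner ℝ (G z) (gradient Psi z) : ℝ)) + 2 * ∫ z in D, V z * (inner ℝ (G z) z : ℝ) := by
    rw [← integral_const_mul, ← integral_add iPsi (iGz.const_mul 2)]
    refine setIntegral_congr_fun measurableSet_ball fun z hz => ?_
    simp only [indicator_of_mem hz]
    rw [grad_V, grad_Psi, real_inner_smul_right, real_inner_smul_right]
    unfold V; ring
  have a2 : ∫ z in D, 1 * u z * D.indicator V z = ∫ z in D, u z * V z := by
    refine setIntegral_congr_fun measurableSet_ball fun z hz => ?_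
    simp only [indicator_of_mem hz, one_mul]
  have a3 : ∫ z in D, 1 * ‖G z‖ ^ 2 * D.indicator V z = ∫ z in D, V z * ‖G z‖ ^ 2 := by
    refine setIntegral_congr_fun measurableSet_ball fun z hz => ?_
    simp only [indicator_of_mem hz, one_mul]
    ring
  have a4 : ∫ z in D, h z * D.indicator V z = ∫ z in D, h z * V z := by
    refine setIntegral_congr_fun measurableSet_ball fun z hz => ?_
    simp only [indicator_of_mem hz]
  have a5 : ∫ z in D, u z * Δ Psi z = -8 * ∫ z in D, u z * V z := by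
    rw [← integral_const_mul]
    refine setIntegral_congr_fun measurableSet_ball fun z hz => ?_
    rw [lap_Psi]; ring
  rw [a1, a2, a3, a4] at h1
  rw [a5] at h2
  have hexp : ∀ z, ‖G z - z‖ ^ 2 * V z = V z * ‖G z‖ ^ 2 - 2 * (V z * (inner ℝ (G z) z : ℝ))
      + V z * (z.re ^ 2 + z.im ^ 2) := by
    intro z
    rw [norm_sub_sq_real, nq]; ring
  have i5 : IntegrableOn (fun z => V z * ‖G z‖ ^ 2 - 2 * (V z * (inner ℝ (G z) z : ℝ))) D volume :=
    iG2.sub (iGz.const_mul 2)
  have i6 : IntegrableOn (fun z => ‖G z - z‖ ^ 2 * V z) D volume := by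
    simp_rw [hexp]
    exact i5.add iq
  refine ⟨i6, ?_⟩
  have a6 : ∫ z in D, ‖G z - z‖ ^ 2 * V z = (∫ z in D, V z * ‖G z‖ ^ 2)
      - 2 * (∫ z in D, V z * (inner ℝ (G z) z : ℝ)) + ∫ z in D, V z * (z.re ^ 2 + z.im ^ 2) := by
    simp_rw [hexp]
    rw [integral_add i5 iq, integral_sub iG2 (iGz.const_mul 2), integral_const_mul]
  have a7 : ∫ z in D, (h z - (z.re ^ 2 + z.im ^ 2)) * V z
      = (∫ z in D, h z * V z) - ∫ z in D, V z * (z.re ^ 2 + z.im ^ 2) := by
    rw [← integral_sub ih iq]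
    refine setIntegral_congr_fun measurableSet_ball fun z hz => ?_
    ring
  rw [a6, a7]
  linarith

lemma V_pos {z : ℂ} (hz : z ∈ D) : 0 < V z := by
  unfold V
  rw [nq]
  have := mem_ball_zero_iff.mp hz
  nlinarith [norm_nonneg z]

lemma J_zero : ∫ z in D, (h z - (z.re ^ 2 + z.im ^ 2)) * V z = 0 := by
  have h1 := (ident solG_us).2
  have h2 : ∫ z in D, ‖D.indicator (gradient us) z - z‖ ^ 2 * V z = 0 := by
    rw [setIntegral_congr_fun (g := fun _ => (0 : ℝ)) measurableSet_ball]
    · simp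
    · intro z hz
      simp only [indicator_of_mem hz, grad_us]
      simp
  rw [h2] at h1
  linarith

/-- no solution `u ≤ 0` for `lam < 8` -/
lemma no_sol {lam : ℝ} (hlam : lam < 8) {u : ℂ → ℝ} (hs : Sol D (fun _ => 1) (fun _ => 1) h lam u) :
    ¬ ∀ᵐ z ∂(volume.restrict D), u z ≤ 0 := by
  intro hneg
  obtain ⟨G, hs⟩ := hs
  obtain ⟨i1, h1⟩ := ident hs
  rw [J_zero, add_zero] at h1
  have hVae : ∀ᵐ z ∂(volume.restrict D), 0 < V z := by
    filter_upwards [ae_restrict_mem measurableSet_ball] with z hz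
    exact V_pos hz
  have iu : IntegrableOn (fun z => u z * V z) D volume := by
    have := integrable_cont_mul (cd_V.continuous.continuousOn) hs.1.1
    exact this.congr_fun (fun z _ => mul_comm _ _) measurableSet_ball
  have h2 : ∫ z in D, u z * V z ≤ 0 := by
    apply integral_nonpos_of_ae
    filter_upwards [hneg, hVae] with z h3 h4
    exact mul_nonpos_of_nonpos_of_nonneg h3 h4.le
  have h3 : 0 ≤ ∫ z in D, ‖G z - z‖ ^ 2 * V z := by
    apply integral_nonneg_of_ae
    filter_upwards [hVae] with z h4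
    exact mul_nonneg (sq_nonneg _) h4.le
  have h4 : ∫ z in D, ‖G z - z‖ ^ 2 * V z = 0 := by nlinarith
  have h5 : ∫ z in D, u z * V z = 0 := by
    rw [h4] at h1
    exact (mul_eq_zero.mp h1).resolve_left (by linarith)
  -- `G = z` and `u = 0` a.e.
  have h6 : ∀ᵐ z ∂(volume.restrict D), G z = z := by
    have := (integral_eq_zero_iff_of_nonneg_ae (by
      filter_upwards [hVae] with z h4
      exact mul_nonneg (sq_nonneg _) h4.le) i1).mp h4
    filter_upwards [this, hVae] with z h7 h8
    have h9 : ‖G z - z‖ ^ 2 * V z = 0 := h7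
    have h10 : ‖G z - z‖ ^ 2 = 0 := (mul_eq_zero.mp h9).resolve_right h8.ne'
    have h11 : ‖G z - z‖ = 0 := by simpa using h10
    exact sub_eq_zero.mp (norm_eq_zero.mp h11)
  have h7 : ∀ᵐ z ∂(volume.restrict D), u z = 0 := by
    have i2 : IntegrableOn (fun z => -(u z * V z)) D volume := iu.neg
    have h8 : ∫ z in D, -(u z * V z) = 0 := by rw [integral_neg, h5, neg_zero]
    have := (integral_eq_zero_iff_of_nonneg_ae (by
      filter_upwards [hneg, hVae] with z h3 h4
      have := mul_nonpos_of_nonpos_of_nonneg h3 h4.le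
      simp only [Pi.zero_apply]
      linarith) i2).mp h8
    filter_upwards [this, hVae] with z h9 h10
    have h11 : -(u z * V z) = 0 := h9
    exact (mul_eq_zero.mp (neg_eq_zero.mp h11)).resolve_right h10.ne'
  -- contradiction by testing with `|z|²/2`
  have h8 := hs.1.green measurableSet_ball isBounded_ball
    (cd_us.of_le (WithTop.coe_le_coe.mpr le_top))
    (continuous_laplacian (cd_us.of_le (WithTop.coe_le_coe.mpr le_top)))
  have h9 : ∫ z in D, u z * Δ us z = 0 := by
    rw [integral_congr_ae (g := fun _ => (0 : ℝ))]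
    · simp
    · filter_upwards [h7] with z hz
      rw [hz, zero_mul]
  have h10 : ∫ z in D, (inner ℝ (G z) (gradient us z) : ℝ) = ∫ z in D, ‖z‖ ^ 2 := by
    apply integral_congr_ae
    filter_upwards [h6] with z hz
    rw [hz, grad_us, real_inner_self_eq_norm_sq]
  rw [h9, h10, neg_zero] at h8
  have hc : Continuous (fun z : ℂ => ‖z‖ ^ 2) := by fun_prop
  have i3 : IntegrableOn (fun z : ℂ => ‖z‖ ^ 2) D volume :=
    (hc.continuousOn.integrableOn_compact (isCompact_closedBall 0 1)).mono_set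
      ball_subset_closedBall
  have h11 := (integral_eq_zero_iff_of_nonneg_ae
    (Eventually.of_forall fun z => (by positivity : (0 : ℝ) ≤ ‖z‖ ^ 2)) i3).mp h8
  have h12 : ∀ᵐ z ∂(volume : Measure ℂ), z ∈ D → z = 0 := by
    rw [← ae_restrict_iff' measurableSet_ball]
    filter_upwards [h11] with z hz
    have : ‖z‖ ^ 2 = 0 := hz
    simpa using this
  have h13 : volume (D \ {0}) = 0 := by
    refine measure_mono_null ?_ (ae_iff.mp h12)
    rintro z ⟨hz1, hz2⟩
    simp only [mem_ofPred_eq, Classical.not_imp]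
    exact ⟨hz1, hz2⟩
  have h14 : 0 < volume (D \ {0}) := by
    have : IsOpen (D \ {(0 : ℂ)}) := isOpen_ball.sdiff isClosed_singleton
    refine this.measure_pos volume ⟨((1 / 2 : ℝ) : ℂ), ?_, ?_⟩
    · rw [mem_ball_zero_iff, Complex.norm_real]; norm_num
    · simp
  exact h14.ne' h13

/-- The data `Ω` = unit disk, `c = μ = 1`, `h = 2 - 5|z|²`: the threshold is `8`, and the
non-positive solution at the threshold is `-(1 - |z|²)/2 ≪ 0`. -/
theorem result :
    let h : ℂ → ℝ := fun z => 2 - 5 * (z.re ^ 2 + z.im ^ 2)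
    let S : ℝ → (ℂ → ℝ) → Prop := fun lam u => Sol (ball 0 1) (fun _ => 1) (fun _ => 1) h lam u ∧
      ∀ᵐ z ∂(volume.restrict (ball (0 : ℂ) 1)), u z ≤ 0
    let us : ℂ → ℝ := (ball (0 : ℂ) 1).indicator fun z => -(1 - (z.re ^ 2 + z.im ^ 2)) / 2
    (¬ ∃ u, S 0 u) ∧ S 8 us ∧ (∀ lam < 8, ¬ ∃ u, S lam u) ∧
    sInf {lam : ℝ | 0 ≤ lam ∧ ∃ u, S lam u} = 8 ∧
    ∀ (ψ : ℂ → ℝ) (L : ℝ≥0), LipschitzOnWith L ψ (closedBall 0 1) → (∀ z, ‖z‖ = 1 → ψ z = 0) →
      ∃ ε > 0, ∀ z ∈ closedBall (0 : ℂ) 1, ε * ψ z ≤ - us z := by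
  intro h' S us'
  have hS8 : S 8 us' := by
    refine ⟨⟨_, solG_us⟩, Eventually.of_forall fun z => ?_⟩
    simp only [us']
    by_cases hz : z ∈ ball (0 : ℂ) 1
    · rw [indicator_of_mem hz]
      have := V_pos hz
      unfold V at this
      linarith
    · rw [indicator_of_notMem hz]
  have hno : ∀ lam < 8, ¬ ∃ u, S lam u := by
    rintro lam hlam ⟨u, h1, h2⟩
    exact no_sol hlam h1 h2
  refine ⟨hno 0 (by norm_num), hS8, hno, ?_, ?_⟩
  · apply le_antisymm
    · exact csInf_le ⟨0, fun x hx => hx.1⟩ (show (0 : ℝ) ≤ 8 ∧ ∃ u, S 8 u from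
        ⟨by norm_num, us', hS8⟩)
    · apply le_csInf ⟨8, show (0 : ℝ) ≤ 8 ∧ ∃ u, S 8 u from ⟨by norm_num, us', hS8⟩⟩
      rintro lam ⟨-, hl⟩
      by_contra hcon
      exact hno lam (not_le.mp hcon) hl
  · intro ψ L hψ hψ0
    refine ⟨1 / (2 * (L + 1)), by positivity, fun z hz => ?_⟩
    have hz1 : ‖z‖ ≤ 1 := mem_closedBall_zero_iff.mp hz
    have hq : -us' z = (1 - ‖z‖ ^ 2) / 2 := by
      simp only [us']
      by_cases hz' : z ∈ ball (0 : ℂ) 1
      · rw [indicator_of_mem hz', nq]; ring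
      · rw [indicator_of_notMem hz']
        have : ‖z‖ = 1 := by
          rw [mem_ball_zero_iff, not_lt] at hz'
          exact le_antisymm hz1 hz'
        rw [this]; norm_num
    rw [hq]
    obtain ⟨e, he1, he2⟩ : ∃ e : ℂ, ‖e‖ = 1 ∧ ‖z - e‖ = 1 - ‖z‖ := by
      rcases eq_or_ne z 0 with rfl | hne
      · exact ⟨1, by simp, by simp⟩
      · have hp : 0 < ‖z‖ := norm_pos_iff.mpr hne
        refine ⟨(1 / ‖z‖) • z, ?_, ?_⟩
        · rw [norm_smul, Real.norm_eq_abs, abs_of_pos (by positivity)]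
          field_simp
        · have : z - (1 / ‖z‖) • z = (1 - 1 / ‖z‖) • z := by rw [sub_smul, one_smul]
          rw [this, norm_smul, Real.norm_eq_abs, abs_of_nonpos (by
            rw [sub_nonpos, le_div_iff₀ hp]; linarith)]
          field_simp
          ring
    have h1 := hψ.dist_le_mul z hz e (mem_closedBall_zero_iff.mpr he1.le)
    rw [Real.dist_eq, hψ0 e he1, sub_zero, dist_eq_norm, he2] at h1
    have h2 : ψ z ≤ (L + 1) * (1 - ‖z‖) := by
      have := le_abs_self (ψ z)
      have h3 : 0 ≤ 1 - ‖z‖ := by linarith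
      nlinarith
    calc 1 / (2 * (L + 1)) * ψ z ≤ 1 / (2 * ((L : ℝ) + 1)) * ((L + 1) * (1 - ‖z‖)) :=
          mul_le_mul_of_nonneg_left h2 (by positivity)
      _ = (1 - ‖z‖) / 2 := by field_simp
      _ ≤ (1 - ‖z‖ ^ 2) / 2 := by nlinarith [norm_nonneg z]

end Pool.Agent.Results.MP_0cf84d_an.MuchLess
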